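import Mathlib

/-!
# Stern polynomials at prime indices are irreducible

`B 0 = 0`, `B 1 = 1`, `B (2n) = t B n`, `B (2n+1) = B n + B (n+1)`. For every prime `p` the
polynomial `B p` is irreducible over the rationals.

Idea. `B p` takes the value `p` at `2`, so in a factorisation over the integers one factor `f` has
`|f(2)| = 1`. All zeros `z` of all `B n`, `n ≥ 1`, satisfy `|z - 2|^2 > |z - 1|`, hence
`|f(2)|^2 > |lc f| |f(1)| ≥ 1`, because `f(1)` divides `B p (1) > 0`. The zero-free region comes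
from a disc which is mapped into itself and into its inverse disc by `r ↦ (1 + r) / t`.
-/

set_option autoImplicit false

namespace Pool.Agent.Results.MP_201fbb_nt.SternPrimeH69

open Polynomial Complex

/-- The Stern polynomials: `stern 0 = 0`, `stern 1 = 1`, `stern (2n) = X * stern n` and
`stern (2n+1) = stern n + stern (n+1)`. -/
noncomputable def stern : ℕ → ℤ[X]
  | 0 => 0
  | 1 => 1
  | (n + 2) =>
    if h : (n + 2) % 2 = 0 then X * stern ((n + 2) / 2)
    else stern ((n + 2) / 2) + stern ((n + 2) / 2 + 1)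
  decreasing_by all_goals omega

theorem stern_zero : stern 0 = 0 := by rw [stern]

theorem stern_one : stern 1 = 1 := by rw [stern]

theorem stern_even (n : ℕ) : stern (2 * n) = X * stern n := by
  rcases n with _ | n
  · simp [stern_zero]
  · have h : 2 * (n + 1) = 2 * n + 2 := by ring
    rw [h, stern]
    have h1 : (2 * n + 2) % 2 = 0 := by omega
    have h2 : (2 * n + 2) / 2 = n + 1 := by omega
    simp only [h1, h2, dif_pos]

theorem stern_odd (n : ℕ) : stern (2 * n + 1) = stern n + stern (n + 1) := by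
  rcases n with _ | n
  · simp [stern_zero, stern_one]
  · have h : 2 * (n + 1) + 1 = (2 * n + 1) + 2 := by ring
    rw [h, stern]
    have h1 : ¬ ((2 * n + 1 + 2) % 2 = 0) := by omega
    have h2 : (2 * n + 1 + 2) / 2 = n + 1 := by omega
    simp only [h1, h2, dif_neg, not_false_eq_true]

/-! ### Values at `1` and `2` -/

theorem eval_two (n : ℕ) : (stern n).eval 2 = n := by
  induction n using Nat.strong_induction_on with
  | _ n ih =>
    rcases Nat.even_or_odd' n with ⟨k, rfl | rfl⟩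
    · rcases k with _ | k
      · simp [stern_zero]
      · rw [stern_even, eval_mul, eval_X, ih (k + 1) (by omega)]
        push_cast; ring
    · rcases k with _ | k
      · simp [stern_one]
      · rw [stern_odd, eval_add, ih (k + 1) (by omega), ih (k + 1 + 1) (by omega)]
        push_cast; ring

theorem eval_one_pos (n : ℕ) (hn : 1 ≤ n) : 0 < (stern n).eval 1 := by
  induction n using Nat.strong_induction_on with
  | _ n ih =>
    rcases Nat.even_or_odd' n with ⟨k, rfl | rfl⟩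
    · rw [stern_even, eval_mul, eval_X, one_mul]
      exact ih k (by omega) (by omega)
    · rcases k with _ | k
      · simp [stern_one]
      · rw [stern_odd, eval_add]
        have := ih (k + 1) (by omega) (by omega)
        have := ih (k + 1 + 1) (by omega) (by omega)
        positivity

theorem eval_one_lt (n : ℕ) (hn : 2 ≤ n) : (stern n).eval 1 < n := by
  induction n using Nat.strong_induction_on with
  | _ n ih =>
    rcases Nat.even_or_odd' n with ⟨k, rfl | rfl⟩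
    · rw [stern_even, eval_mul, eval_X, one_mul]
      by_cases hk : k = 1
      · subst hk; simp [stern_one]
      · have := ih k (by omega) (by omega)
        push_cast
        have h1 : (2 : ℤ) ≤ k := by exact_mod_cast (by omega : 2 ≤ k)
        linarith
    · rw [stern_odd, eval_add]
      by_cases hk : k = 1
      · subst hk
        have h2 : stern 2 = X := by
          have := stern_even 1
          simpa [stern_one] using this
        simp [stern_one, h2]
      · have h1 := ih k (by omega) (by omega)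
        have h2 := ih (k + 1) (by omega) (by omega)
        push_cast at *
        linarith

/-! ### The invariant disc -/

/-- The Hermitian form of the disc with centre `c` and radius `ρ`, `ρ2 = ρ^2`. -/
noncomputable def Q (ρ2 c : ℝ) (p q : ℂ) : ℝ := ρ2 * normSq q - normSq (p - c * q)

theorem herm (α γ : ℝ) (β w b : ℂ) (hα : 0 ≤ α) (hγ : 0 ≤ γ) (h : normSq β ≤ α * γ) :
    0 ≤ α * normSq w + γ * normSq b + 2 * (β * b * (starRingEnd ℂ) w).re := by
  have h1 : |(β * b * (starRingEnd ℂ) w).re| ≤ ‖β‖ * ‖b‖ * ‖w‖ := by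
    refine (abs_re_le_norm _).trans ?_
    rw [norm_mul, norm_mul, RCLike.norm_conj]
  have h2 := (abs_le.mp h1).1
  rw [normSq_eq_norm_sq] at *
  have h3 : ‖β‖ ^ 2 ≤ α * γ := h
  have h4 : (‖β‖ * ‖b‖ * ‖w‖) ^ 2 ≤ (α * ‖w‖ ^ 2) * (γ * ‖b‖ ^ 2) := by
    have : 0 ≤ (‖b‖ * ‖w‖) ^ 2 := by positivity
    nlinarith [mul_le_mul_of_nonneg_right h3 this]
  have h5 : 0 ≤ α * ‖w‖ ^ 2 := by positivity
  have h6 : 0 ≤ γ * ‖b‖ ^ 2 := by positivity
  have h7 : 2 * (‖β‖ * ‖b‖ * ‖w‖) ≤ α * ‖w‖ ^ 2 + γ * ‖b‖ ^ 2 := by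
    have h8 : 0 ≤ ‖β‖ * ‖b‖ * ‖w‖ := by positivity
    nlinarith [sq_nonneg (α * ‖w‖ ^ 2 - γ * ‖b‖ ^ 2)]
  rw [normSq_eq_norm_sq]
  linarith

/-- The two basic inequalities for the form `Q`. -/
theorem step (t : ℂ) (T u : ℝ) (hT : T = ‖t‖) (hT1 : 1 < T)
    (hA : 0 ≤ 2 * u - 1 - T ^ 2 + T)
    (hD : (u - 1) ^ 2 * T ^ 2 - 2 * (u - 1) * T * u * t.re + T ^ 2 * u ^ 2
      ≤ (2 * u - 1 - T ^ 2 + T) * (T ^ 2 * (T - 1))) (a b : ℂ) :
    T * Q (u ^ 2 - T ^ 2) (u - 1) a b ≤ Q (u ^ 2 - T ^ 2) (u - 1) (a + b) (t * b) ∧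
    T * Q (u ^ 2 - T ^ 2) (u - 1) a b ≤ Q (u ^ 2 - T ^ 2) (u - 1) (t * b) (a + b) := by
  have hTsq : T ^ 2 = t.re * t.re + t.im * t.im := by
    rw [hT, ← normSq_eq_norm_sq, normSq_apply]
  have hβ : normSq ((u - 1 : ℝ) * t - (T * u : ℝ)) =
      (u - 1) ^ 2 * T ^ 2 - 2 * (u - 1) * T * u * t.re + T ^ 2 * u ^ 2 := by
    rw [normSq_apply]
    simp only [sub_re, mul_re, ofReal_re, ofReal_im, sub_im, mul_im]
    rw [hTsq]
    ring_nf
    rw [show T ^ 2 = t.re * t.re + t.im * t.im from hTsq]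
    ring
  have h1 := herm (T - 1) (T ^ 2 * (2 * u - 1 - T ^ 2 + T)) ((u - 1 : ℝ) * t - (T * u : ℝ))
    (a + b) b (by linarith) (by positivity) (by rw [hβ]; linarith)
  have h2 := herm (2 * u - 1 - T ^ 2 + T) (T ^ 2 * (T - 1)) ((u - 1 : ℝ) * t - (T * u : ℝ))
    (a + b) b hA (mul_nonneg (by positivity) (by linarith)) (by rw [hβ]; linarith)
  have e1 : Q (u ^ 2 - T ^ 2) (u - 1) (a + b) (t * b) - T * Q (u ^ 2 - T ^ 2) (u - 1) a b =
      (T - 1) * normSq (a + b) + T ^ 2 * (2 * u - 1 - T ^ 2 + T) * normSq b +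
      2 * (((u - 1 : ℝ) * t - (T * u : ℝ)) * b * (starRingEnd ℂ) (a + b)).re := by
    have hTsq' : t.im * t.im = T ^ 2 - t.re * t.re := by linarith
    have hTsq2 : t.im ^ 2 = T ^ 2 - t.re ^ 2 := by rw [sq, hTsq']; ring
    simp only [Q, normSq_apply, sub_re, mul_re, ofReal_re, ofReal_im, sub_im, mul_im, add_re,
      add_im, conj_re, conj_im]
    ring_nf
    simp only [hTsq2]
    ring
  have e2 : Q (u ^ 2 - T ^ 2) (u - 1) (t * b) (a + b) - T * Q (u ^ 2 - T ^ 2) (u - 1) a b =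
      (2 * u - 1 - T ^ 2 + T) * normSq (a + b) + T ^ 2 * (T - 1) * normSq b +
      2 * (((u - 1 : ℝ) * t - (T * u : ℝ)) * b * (starRingEnd ℂ) (a + b)).re := by
    have hTsq' : t.im * t.im = T ^ 2 - t.re * t.re := by linarith
    have hTsq2 : t.im ^ 2 = T ^ 2 - t.re ^ 2 := by rw [sq, hTsq']; ring
    simp only [Q, normSq_apply, sub_re, mul_re, ofReal_re, ofReal_im, sub_im, mul_im, add_re,
      add_im, conj_re, conj_im]
    ring_nf
    simp only [hTsq2]
    ring
  constructor <;> linarith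

/-- **Zero-free region.** If `T = |t| > 1` and `2 (T - Re t) (T (T-1)^2 + 1) ≤ T (T-1)^2` then no
Stern polynomial of positive index vanishes at `t`. -/
theorem zero_free (t : ℂ) (T : ℝ) (hT : T = ‖t‖) (hT1 : 1 < T)
    (h : 2 * (T - t.re) * (T * (T - 1) ^ 2 + 1) ≤ T * (T - 1) ^ 2) (n : ℕ) (hn : 1 ≤ n) :
    aeval t (stern n) ≠ 0 := by
  set s : ℝ := T - 1 with hs
  have hs0 : 0 < s := by linarith
  have hTs : T = 1 + s := by linarith
  set v : ℝ := T * s ^ 2 with hv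
  have hv0 : 0 < v := by positivity
  set u : ℝ := (v + 1) / s with hu
  have hus : u * s = v + 1 := by rw [hu]; field_simp
  have hvT : 0 < v + 2 - T := by
    rw [hv, hTs]
    nlinarith [sq_nonneg (s - 1), sq_nonneg (s), mul_pos hs0 (mul_pos hs0 hs0),
      sq_nonneg (2 * s - 1)]
  have hmain : 0 < 2 * u - 1 - T ^ 2 := by
    have : 0 < (2 * u - 1 - T ^ 2) * s := by
      have e : (2 * u - 1 - T ^ 2) * s = 2 * (v + 1) - s - T ^ 2 * s := by rw [← hus]; ring
      rw [e, hv, hTs]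
      nlinarith [sq_nonneg (s - 1), mul_pos hs0 hs0, mul_pos hs0 (mul_pos hs0 hs0),
        mul_nonneg hs0.le (sq_nonneg (s - 1))]
    exact (pos_iff_pos_of_mul_pos this).mpr hs0
  have hA : 0 ≤ 2 * u - 1 - T ^ 2 + T := by linarith
  have hD : (u - 1) ^ 2 * T ^ 2 - 2 * (u - 1) * T * u * t.re + T ^ 2 * u ^ 2
      ≤ (2 * u - 1 - T ^ 2 + T) * (T ^ 2 * (T - 1)) := by
    have hE : ((2 * u - 1 - T ^ 2 + T) * (T ^ 2 * (T - 1)) - ((u - 1) ^ 2 * T ^ 2
        - 2 * (u - 1) * T * u * t.re + T ^ 2 * u ^ 2)) * s ^ 2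
        = T * ((v + 2 - T) * (v - 2 * (T - t.re) * (v + 1))) := by
      have e1 : ((2 * u - 1 - T ^ 2 + T) * (T ^ 2 * (T - 1)) - ((u - 1) ^ 2 * T ^ 2
        - 2 * (u - 1) * T * u * t.re + T ^ 2 * u ^ 2)) * s ^ 2 =
        (2 * (u * s) * s - (1 + T ^ 2 - T) * s ^ 2) * (T ^ 2 * (T - 1)) - ((u * s - s) ^ 2 * T ^ 2
        - 2 * (u * s - s) * T * (u * s) * t.re + T ^ 2 * (u * s) ^ 2) := by ring
      rw [e1, hus, hv, hTs]
      ring
    have h0 : 0 ≤ T * ((v + 2 - T) * (v - 2 * (T - t.re) * (v + 1))) := by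
      refine mul_nonneg (by linarith) (mul_nonneg hvT.le ?_)
      linarith
    rw [← hE] at h0
    have hs2 : 0 < s ^ 2 := by positivity
    have := nonneg_of_mul_nonneg_left h0 hs2
    linarith
  have hstep := step t T u hT hT1 hA hD
  set ρ2 : ℝ := u ^ 2 - T ^ 2 with hρ
  -- the induction
  have key : ∀ n : ℕ, (1 ≤ n → 0 < Q ρ2 (u - 1) (aeval t (stern (n + 1))) (aeval t (stern n))) ∧
      0 < Q ρ2 (u - 1) (aeval t (stern n)) (aeval t (stern (n + 1))) := by
    intro n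
    induction n using Nat.strong_induction_on with
    | _ n ih =>
      have hT0 : 0 < T := by linarith
      rcases Nat.even_or_odd' n with ⟨k, rfl | rfl⟩
      · rcases k with _ | k
        · refine ⟨fun h => absurd h (by norm_num), ?_⟩
          simp only [Nat.mul_zero, zero_add, stern_zero, stern_one, map_zero, map_one, Q]
          have : normSq ((0 : ℂ) - (u - 1 : ℝ) * 1) = (u - 1) ^ 2 := by
            rw [zero_sub, mul_one, normSq_neg, normSq_ofReal]; ring
          push_cast at this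
          push_cast
          rw [this]
          nlinarith
        · have h1 := (ih (k + 1) (by omega)).1 (by omega)
          obtain ⟨s1, s2⟩ := hstep (aeval t (stern (k + 1 + 1))) (aeval t (stern (k + 1)))
          rw [stern_even, stern_odd]
          simp only [map_mul, aeval_X, map_add]
          rw [add_comm (aeval t (stern (k + 1))) (aeval t (stern (k + 1 + 1)))]
          exact ⟨fun _ => lt_of_lt_of_le (mul_pos hT0 h1) s1, lt_of_lt_of_le (mul_pos hT0 h1) s2⟩
      · have h1 := (ih k (by omega)).2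
        obtain ⟨s1, s2⟩ := hstep (aeval t (stern k)) (aeval t (stern (k + 1)))
        have e : 2 * k + 1 + 1 = 2 * (k + 1) := by ring
        rw [e, stern_even, stern_odd]
        simp only [map_mul, aeval_X, map_add]
        exact ⟨fun _ => lt_of_lt_of_le (mul_pos hT0 h1) s2, lt_of_lt_of_le (mul_pos hT0 h1) s1⟩
  intro h0
  have := (key n).1 hn
  rw [h0, Q] at this
  simp only [map_zero, mul_zero, sub_zero, zero_sub] at this
  linarith [normSq_nonneg (aeval t (stern (n + 1)))]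

theorem polyG (s : ℝ) (hs : 0 ≤ s) :
    0 < ((s - 1) ^ 2 * ((1 + s) * s ^ 2 + 1) + 2 * ((1 + s) * s ^ 2)) ^ 2
      - s ^ 2 * ((1 + s) * s ^ 2 + 1) ^ 2 - (1 + s) * s ^ 2 * ((1 + s) * s ^ 2 + 1) := by
  rcases le_total s 1 with h | h
  · obtain ⟨q, hq⟩ : ∃ q, q = 1 - s := ⟨_, rfl⟩
    have hq0 : 0 ≤ q := by linarith
    have e : ((s - 1) ^ 2 * ((1 + s) * s ^ 2 + 1) + 2 * ((1 + s) * s ^ 2)) ^ 2
      - s ^ 2 * ((1 + s) * s ^ 2 + 1) ^ 2 - (1 + s) * s ^ 2 * ((1 + s) * s ^ 2 + 1)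
      = q ^ 10 + 6 * s * q ^ 9 + 19 * s ^ 2 * q ^ 8 + 41 * s ^ 3 * q ^ 7 + 56 * s ^ 4 * q ^ 6
        + 45 * s ^ 5 * q ^ 5 + 23 * s ^ 6 * q ^ 4 + 11 * s ^ 7 * q ^ 3 + 7 * s ^ 8 * q ^ 2
        + 3 * s ^ 9 * q + s ^ 10 := by
      rw [hq]; ring
    rw [e]
    rcases eq_or_lt_of_le hs with h0 | h0
    · have : q = 1 := by rw [hq, ← h0]; ring
      rw [← h0, this]; norm_num
    · have : 0 < s ^ 10 := by positivity
      have h1 : 0 ≤ q ^ 10 + 6 * s * q ^ 9 + 19 * s ^ 2 * q ^ 8 + 41 * s ^ 3 * q ^ 7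
        + 56 * s ^ 4 * q ^ 6 + 45 * s ^ 5 * q ^ 5 + 23 * s ^ 6 * q ^ 4 + 11 * s ^ 7 * q ^ 3
        + 7 * s ^ 8 * q ^ 2 + 3 * s ^ 9 * q := by positivity
      linarith
  · obtain ⟨r, hr⟩ : ∃ r, s = 1 + r := ⟨s - 1, by ring⟩
    have hr0 : 0 ≤ r := by linarith
    have e : ((s - 1) ^ 2 * ((1 + s) * s ^ 2 + 1) + 2 * ((1 + s) * s ^ 2)) ^ 2
      - s ^ 2 * ((1 + s) * s ^ 2 + 1) ^ 2 - (1 + s) * s ^ 2 * ((1 + s) * s ^ 2 + 1)
      = 1 + 7 * r + 25 * r ^ 2 + 57 * r ^ 3 + 100 * r ^ 4 + 128 * r ^ 5 + 113 * r ^ 6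
        + 68 * r ^ 7 + 29 * r ^ 8 + 8 * r ^ 9 + r ^ 10 := by
      rw [hr]; ring
    rw [e]
    positivity

theorem polyH (s : ℝ) (hs : 0 ≤ s) :
    0 < 4 * (s - 1) ^ 2 * ((1 + s) * s ^ 2 + 1) + 7 * ((1 + s) * s ^ 2) - 1 := by
  have h3 : 0 ≤ s ^ 3 := by positivity
  nlinarith [mul_nonneg (sq_nonneg (s - 1)) (mul_nonneg (by linarith : (0 : ℝ) ≤ 1 + s) (sq_nonneg s)),
    sq_nonneg (11 * s - 4)]

/-- The region `|z - 2|^2 ≤ |z - 1|` lies in the zero-free region. -/
theorem region (z : ℂ) (h : ‖z - 2‖ ^ 2 ≤ ‖z - 1‖) :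
    1 < ‖z‖ ∧ 2 * (‖z‖ - z.re) * (‖z‖ * (‖z‖ - 1) ^ 2 + 1) ≤ ‖z‖ * (‖z‖ - 1) ^ 2 := by
  set T := ‖z‖ with hT
  set x := z.re with hx
  have hTsq : T ^ 2 = z.re * z.re + z.im * z.im := by
    rw [hT, ← normSq_eq_norm_sq, normSq_apply]
  have h1 : ‖z - 1‖ ^ 2 = T ^ 2 - 2 * x + 1 := by
    rw [← normSq_eq_norm_sq, normSq_apply, hTsq]
    simp only [sub_re, sub_im, one_re, one_im]
    ring
  have h2 : ‖z - 2‖ ^ 2 = T ^ 2 - 4 * x + 4 := by
    rw [← normSq_eq_norm_sq, normSq_apply, hTsq]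
    have r2 : (2 : ℂ).re = 2 := by norm_num
    have i2 : (2 : ℂ).im = 0 := by norm_num
    simp only [sub_re, sub_im, r2, i2]
    ring
  have hxT : x ≤ T := (le_abs_self _).trans (abs_re_le_norm z)
  have hT0 : 0 ≤ T := norm_nonneg z
  have hm0 : 0 ≤ ‖z - 1‖ := norm_nonneg _
  have h3 : (T ^ 2 - 4 * x + 4) ^ 2 ≤ T ^ 2 - 2 * x + 1 := by
    rw [← h1, ← h2]
    exact pow_le_pow_left₀ (by positivity) h 2
  have hT1 : 1 < T := by
    by_contra hcon
    push Not at hcon
    have h4 : ‖z - 2‖ ^ 2 = ‖z - 1‖ ^ 2 + 3 - 2 * x := by rw [h1, h2]; ring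
    nlinarith [sq_nonneg (‖z - 1‖ - 1 / 2)]
  refine ⟨hT1, ?_⟩
  obtain ⟨s, hs⟩ : ∃ s, s = T - 1 := ⟨_, rfl⟩
  obtain ⟨d, hd⟩ : ∃ d, d = T - x := ⟨_, rfl⟩
  have hs0 : 0 < s := by linarith
  have hd0 : 0 ≤ d := by linarith
  have hTs : T = 1 + s := by linarith
  have hxd : x = 1 + s - d := by linarith
  rw [hTs, hxd] at h3
  have h5 : ((s - 1) ^ 2 + 4 * d) ^ 2 ≤ s ^ 2 + 2 * d := by
    have e1 : ((1 + s) ^ 2 - 4 * (1 + s - d) + 4) = ((s - 1) ^ 2 + 4 * d) := by ring
    have e2 : (1 + s) ^ 2 - 2 * (1 + s - d) + 1 = s ^ 2 + 2 * d := by ring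
    rw [← e1, ← e2]; exact h3
  by_contra hcon
  push Not at hcon
  have e3 : T - x = d := by linarith
  rw [e3, hTs] at hcon
  have e4 : (1 + s - 1 : ℝ) = s := by ring
  rw [e4] at hcon
  obtain ⟨v, hv⟩ : ∃ v, v = (1 + s) * s ^ 2 := ⟨_, rfl⟩
  obtain ⟨y, hy⟩ : ∃ y, y = 2 * d * (v + 1) := ⟨_, rfl⟩
  have hv0 : 0 < v := by rw [hv]; positivity
  rw [← hv, ← hy] at hcon
  have h6 : ((s - 1) ^ 2 * (v + 1) + 2 * y) ^ 2 ≤ s ^ 2 * (v + 1) ^ 2 + y * (v + 1) := by
    have := mul_le_mul_of_nonneg_right h5 (sq_nonneg (v + 1))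
    have e5 : ((s - 1) ^ 2 + 4 * d) ^ 2 * (v + 1) ^ 2 = ((s - 1) ^ 2 * (v + 1) + 2 * y) ^ 2 := by
      rw [hy]; ring
    have e6 : (s ^ 2 + 2 * d) * (v + 1) ^ 2 = s ^ 2 * (v + 1) ^ 2 + y * (v + 1) := by
      rw [hy]; ring
    rw [e5, e6] at this
    exact this
  have hG : 0 < ((s - 1) ^ 2 * (v + 1) + 2 * v) ^ 2 - s ^ 2 * (v + 1) ^ 2 - v * (v + 1) := by
    rw [hv]
    exact polyG s hs0.le
  have h7 : 0 < 4 * (s - 1) ^ 2 * (v + 1) + 4 * (y + v) - (v + 1) := by
    have : 0 < 4 * (s - 1) ^ 2 * (v + 1) + 7 * v - 1 := by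
      rw [hv]
      exact polyH s hs0.le
    linarith
  have h8 : ((s - 1) ^ 2 * (v + 1) + 2 * y) ^ 2 - s ^ 2 * (v + 1) ^ 2 - y * (v + 1)
      = (((s - 1) ^ 2 * (v + 1) + 2 * v) ^ 2 - s ^ 2 * (v + 1) ^ 2 - v * (v + 1))
        + (y - v) * (4 * (s - 1) ^ 2 * (v + 1) + 4 * (y + v) - (v + 1)) := by ring
  have h9 : 0 < (y - v) * (4 * (s - 1) ^ 2 * (v + 1) + 4 * (y + v) - (v + 1)) :=
    mul_pos (by linarith) h7
  linarith

/-- All zeros `z` of the Stern polynomials of positive index satisfy `|z - 2|^2 > |z - 1|`. -/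
theorem root_bound (n : ℕ) (hn : 1 ≤ n) (z : ℂ) (hz : aeval z (stern n) = 0) :
    ‖1 - z‖ < ‖2 - z‖ ^ 2 := by
  by_contra hcon
  push Not at hcon
  rw [norm_sub_rev 2 z, norm_sub_rev 1 z] at hcon
  obtain ⟨h1, h2⟩ := region z hcon
  exact zero_free z ‖z‖ rfl h1 h2 n hn hz

/-! ### Factors -/

theorem prod_lt {s : Multiset ℂ} (hs : s ≠ 0) (f g : ℂ → ℝ) (hg : ∀ z ∈ s, 0 ≤ g z)
    (h : ∀ z ∈ s, g z < f z) : (s.map g).prod < (s.map f).prod := by
  induction s using Multiset.induction_on with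
  | empty => exact absurd rfl hs
  | cons a s ih =>
    rw [Multiset.map_cons, Multiset.map_cons, Multiset.prod_cons, Multiset.prod_cons]
    have ha := h a (Multiset.mem_cons_self a s)
    have ha0 := hg a (Multiset.mem_cons_self a s)
    by_cases h0 : s = 0
    · subst h0; simpa using ha
    · have h1 := ih h0 (fun z hz => hg z (Multiset.mem_cons_of_mem hz))
        (fun z hz => h z (Multiset.mem_cons_of_mem hz))
      have h2 : 0 ≤ (s.map g).prod := by
        refine Multiset.prod_nonneg fun x hx => ?_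
        obtain ⟨z, hz, rfl⟩ := Multiset.mem_map.mp hx
        exact hg z (Multiset.mem_cons_of_mem hz)
      exact mul_lt_mul'' ha h1 ha0 h2

theorem norm_eval (F : ℂ[X]) (w : ℂ) :
    ‖F.eval w‖ = ‖F.leadingCoeff‖ * (F.roots.map (fun z => ‖w - z‖)).prod := by
  have h := (IsAlgClosed.splits F).eval_eq_prod_roots w
  rw [h, norm_mul]
  congr 1
  have h2 := map_multiset_prod (normHom : ℂ →*₀ ℝ) (F.roots.map (fun x => w - x))
  rw [Multiset.map_map] at h2
  exact h2

/-- A nonconstant integral divisor `f` of a Stern polynomial has `|f(2)| > 1`. -/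
theorem factor_bound (n : ℕ) (hn : 1 ≤ n) (f : ℤ[X]) (hf : f ∣ stern n)
    (hdeg : f.natDegree ≠ 0) : 1 < |f.eval 2| := by
  have hf0 : f ≠ 0 := by rintro rfl; simp at hdeg
  set F : ℂ[X] := f.map (Int.castRingHom ℂ) with hF
  have hinj : Function.Injective (Int.castRingHom ℂ) := Int.cast_injective
  have hF0 : F ≠ 0 := (Polynomial.map_ne_zero_iff hinj).mpr hf0
  have hFdeg : F.natDegree = f.natDegree := natDegree_map_eq_of_injective hinj f
  have hroots : F.roots ≠ 0 := by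
    intro h
    have : Multiset.card F.roots = F.natDegree := (IsAlgClosed.splits F).natDegree_eq_card_roots.symm
    rw [h, hFdeg] at this
    exact hdeg (by simpa using this.symm)
  have hz : ∀ z ∈ F.roots, ‖1 - z‖ < ‖2 - z‖ ^ 2 := by
    intro z hz
    refine root_bound n hn z ?_
    obtain ⟨g, hg⟩ := hf
    have h1 : aeval z f = 0 := by
      have := (mem_roots hF0).mp hz
      rw [IsRoot.def, hF, eval_map] at this
      rw [aeval_def]
      exact this
    rw [hg, map_mul, h1, zero_mul]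
  have h2 : F.eval 2 = ((f.eval 2 : ℤ) : ℂ) := by
    rw [hF, eval_map, eval₂_at_ofNat, eq_intCast]
  have h1 : F.eval 1 = ((f.eval 1 : ℤ) : ℂ) := by
    rw [hF, eval_map, eval₂_at_one, eq_intCast]
  have hlc : F.leadingCoeff = ((f.leadingCoeff : ℤ) : ℂ) := by
    rw [hF, leadingCoeff_map_of_injective hinj, eq_intCast]
  have hprod := prod_lt hroots (fun z => ‖2 - z‖ ^ 2) (fun z => ‖1 - z‖)
    (fun z _ => norm_nonneg _) hz
  have hsq : (F.roots.map (fun z => ‖2 - z‖ ^ 2)).prod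
      = ((F.roots.map (fun z => ‖2 - z‖)).prod) ^ 2 := by
    rw [Multiset.prod_map_pow]
  have e2 := norm_eval F 2
  have e1 := norm_eval F 1
  rw [h2, hlc, Complex.norm_intCast, Complex.norm_intCast] at e2
  rw [h1, hlc, Complex.norm_intCast, Complex.norm_intCast] at e1
  have hlc1 : (1 : ℝ) ≤ |(f.leadingCoeff : ℝ)| := by
    have : f.leadingCoeff ≠ 0 := leadingCoeff_ne_zero.mpr hf0
    exact_mod_cast Int.one_le_abs this
  have hf1 : (1 : ℝ) ≤ |((f.eval 1 : ℤ) : ℝ)| := by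
    have : f.eval 1 ≠ 0 := by
      intro h
      obtain ⟨g, hg⟩ := hf
      have := eval_one_pos n hn
      rw [hg, eval_mul, h, zero_mul] at this
      exact lt_irrefl _ this
    exact_mod_cast Int.one_le_abs this
  rw [hsq] at hprod
  set A := (F.roots.map (fun z => ‖2 - z‖)).prod
  set B := (F.roots.map (fun z => ‖1 - z‖)).prod
  set L := |(f.leadingCoeff : ℝ)|
  have h3 : (1 : ℝ) < |((f.eval 2 : ℤ) : ℝ)| ^ 2 := by
    rw [e2]
    have hL : 0 < L := by linarith
    have : L ^ 2 * B < (L * A) ^ 2 := by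
      rw [mul_pow]
      exact mul_lt_mul_of_pos_left hprod (by positivity)
    have h4 : 1 ≤ L ^ 2 * B := by
      have : L ^ 2 * B = L * (L * B) := by ring
      rw [this, ← e1]
      nlinarith
    linarith
  have h4 : (1 : ℝ) < |((f.eval 2 : ℤ) : ℝ)| := by
    by_contra hc
    push Not at hc
    have := pow_le_one₀ (n := 2) (abs_nonneg _) hc
    linarith
  exact_mod_cast h4

/-- For a prime `p` the Stern polynomial `B_p` is irreducible over the integers. -/
theorem irreducible_int (p : ℕ) (hp : p.Prime) : Irreducible (stern p) := by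
  have hp1 : 1 ≤ p := hp.one_lt.le
  constructor
  · intro hu
    obtain ⟨r, hr, hrr⟩ := Polynomial.isUnit_iff.mp hu
    have h1 := eval_one_lt p hp.two_le
    have h2 := eval_two p
    rw [← hrr, eval_C] at h1 h2
    omega
  · intro f g hfg
    have hmul : f.eval 2 * g.eval 2 = (p : ℤ) := by rw [← eval_mul, ← hfg, eval_two]
    have hirr : Irreducible (p : ℤ) := (Nat.prime_iff_prime_int.mp hp).irreducible
    have aux : ∀ f g : ℤ[X], stern p = f * g → IsUnit (f.eval 2) → IsUnit f := by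
      intro f g hfg hu
      by_cases hd : f.natDegree = 0
      · obtain ⟨a, ha⟩ := natDegree_eq_zero.mp hd
        rw [← ha, eval_C] at hu
        rw [← ha]
        exact Polynomial.isUnit_C.mpr hu
      · have := factor_bound p hp1 f ⟨g, hfg⟩ hd
        rw [Int.isUnit_iff_abs_eq.mp hu] at this
        exact absurd this (lt_irrefl _)
    rcases hirr.isUnit_or_isUnit hmul.symm with h | h
    · exact Or.inl (aux f g hfg h)
    · exact Or.inr (aux g f (by rw [hfg, mul_comm]) h)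

/-- **Ulas' conjecture.** For every prime `p` the Stern polynomial `B_p` is irreducible in
`ℚ[t]`. -/
theorem result (p : ℕ) (hp : p.Prime) :
    Irreducible ((stern p).map (Int.castRingHom ℚ)) := by
  have h := irreducible_int p hp
  have hd : (stern p).natDegree ≠ 0 := by
    intro hd
    obtain ⟨a, ha⟩ := natDegree_eq_zero.mp hd
    have h1 := eval_one_lt p hp.two_le
    have h2 := eval_two p
    rw [← ha, eval_C] at h1 h2
    omega
  exact (IsPrimitive.Int.irreducible_iff_irreducible_map_cast (h.isPrimitive hd)).mp h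

end Pool.Agent.Results.MP_201fbb_nt.SternPrimeH69
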